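import Mathlib
import Pool.Agent.Helper114.MontelSol

/-! Means over circles of a bounded holomorphic function `b` such that multiplication by `b` does
not decrease suprema. -/

set_option autoImplicit false

open Filter Topology Metric MeasureTheory Set Real

namespace Pool.Agent.Q99.QP

lemma norm_circleAverage_le {f : ℂ → ℂ} {c : ℂ} {R : ℝ} :
    ‖circleAverage f c R‖ ≤ circleAverage (fun z => ‖f z‖) c R := by
  rw [circleAverage, circleAverage, norm_smul, smul_eq_mul, Real.norm_of_nonneg (by positivity)]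
  refine mul_le_mul_of_nonneg_left ?_ (by positivity)
  exact intervalIntegral.norm_integral_le_integral_norm (by positivity)

lemma circleIntegrable_of {E : Type*} [NormedAddCommGroup E] {f : ℂ → E}
    (hf : ContinuousOn f (ball 0 1)) {r : ℝ} (hr0 : 0 ≤ r) (hr1 : r < 1) :
    CircleIntegrable f 0 r :=
  ContinuousOn.circleIntegrable hr0 (hf.mono fun z hz => by
    rw [mem_sphere_zero_iff_norm] at hz
    rw [mem_ball_zero_iff, hz]; exact hr1)

/-- the function `z ↦ b (r z)` -/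
lemma dil {b : ℂ → ℂ} (hb : DifferentiableOn ℂ b (ball 0 1)) {r : ℝ} (hr0 : 0 < r) (hr1 : r < 1) :
    DiffContOnCl ℂ (fun z => b (r * z)) (ball 0 1) := by
  refine DifferentiableOn.diffContOnCl ?_
  rw [closure_ball _ one_ne_zero]
  refine hb.comp ((differentiableOn_const _).mul differentiableOn_id) fun z hz => ?_
  rw [mem_closedBall_zero_iff] at hz
  rw [mem_ball_zero_iff, norm_mul, Complex.norm_real, Real.norm_of_nonneg hr0.le]
  nlinarith

/-- The Herglotz integral of the boundary function `|b (r z)|`. -/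
noncomputable def Hz (b : ℂ → ℂ) (r : ℝ) (z : ℂ) : ℂ :=
  circleAverage (fun ζ => herglotzRieszKernel 0 z ζ • ((‖b (r * ζ)‖ : ℝ) : ℂ)) 0 1

section

variable {b : ℂ → ℂ} (hb : DifferentiableOn ℂ b (ball 0 1))
  (hb1 : ∀ z, ‖z‖ < 1 → ‖b z‖ ≤ 1) {r : ℝ} (hr0 : 0 < r) (hr1 : r < 1)

include hb hr0 hr1

lemma cont_sphere : ContinuousOn (fun ζ : ℂ => ‖b (r * ζ)‖) (sphere 0 1) := by
  have h := (dil hb hr0 hr1).continuousOn
  rw [closure_ball _ one_ne_zero] at h
  exact (h.mono sphere_subset_closedBall).norm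

lemma ci_norm : CircleIntegrable (fun ζ : ℂ => ‖b (r * ζ)‖) 0 1 :=
  ContinuousOn.circleIntegrable zero_le_one (cont_sphere hb hr0 hr1)

lemma Hz_diff : DifferentiableOn ℂ (Hz b r) (ball 0 1) := by
  unfold Hz
  refine differentiableOn_circleAverage_herglotzRieszKernel_smul ?_
  exact ContinuousOn.circleIntegrable zero_le_one
    (Complex.continuous_ofReal.comp_continuousOn (cont_sphere hb hr0 hr1))

lemma Hz_re {z : ℂ} (hz : z ∈ ball (0:ℂ) 1) :
    (Hz b r z).re = circleAverage (fun ζ => (herglotzRieszKernel 0 z ζ).re * ‖b (r * ζ)‖) 0 1 := by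
  rw [Hz, re_circleAverage_herglotzRieszKernel_smul (ci_norm hb hr0 hr1) hz]
  rfl

lemma norm_le_Hz_re {z : ℂ} (hz : z ∈ ball (0:ℂ) 1) : ‖b (r * z)‖ ≤ (Hz b r z).re := by
  rw [Hz_re hb hr0 hr1 hz]
  have h1 := (dil hb hr0 hr1).circleAverage_re_herglotzRieszKernel_smul hz
  rw [← h1]
  refine norm_circleAverage_le.trans (le_of_eq ?_)
  refine circleAverage_congr_sphere fun ζ hζ => ?_
  simp only [Pi.smul_apply', Function.comp]
  rw [norm_smul, Real.norm_of_nonneg]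
  have h2 : (Complex.re ∘ herglotzRieszKernel 0 z) ζ = poissonKernel 0 z ζ := by
    rw [poissonKernel_eq_re_herglotzRieszKernel]
  have h3 : (herglotzRieszKernel 0 z ζ).re = poissonKernel 0 z ζ := h2
  rw [h3, poissonKernel]
  refine div_nonneg ?_ (by positivity)
  rw [abs_one, mem_sphere_zero_iff_norm] at hζ
  rw [mem_ball_zero_iff] at hz
  simp only [sub_zero]
  rw [hζ]
  nlinarith [norm_nonneg z]

lemma Hz_zero : Hz b r 0 = ((circleAverage (fun ζ => ‖b (r * ζ)‖) 0 1 : ℝ) : ℂ) := by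
  have h1 := Complex.ofRealCLM.circleAverage_comp_comm (ci_norm hb hr0 hr1)
  have h2 : ((circleAverage (fun ζ => ‖b (r * ζ)‖) 0 1 : ℝ) : ℂ) =
      Complex.ofRealCLM (circleAverage (fun ζ => ‖b (r * ζ)‖) 0 1) := rfl
  rw [h2, ← h1, Hz]
  refine circleAverage_congr_sphere fun ζ hζ => ?_
  rw [abs_one, mem_sphere_zero_iff_norm] at hζ
  have h0 : ζ ≠ 0 := by
    intro h; rw [h, norm_zero] at hζ; exact zero_ne_one hζ
  simp only [herglotzRieszKernel_def, sub_zero, add_zero, Function.comp, smul_eq_mul,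
    div_self h0, one_mul]
  rfl

end

/-- If multiplication by `b` does not decrease suprema, then the means of `|b|` over circles tend
to one. -/
theorem means {b : ℂ → ℂ} (hb : DifferentiableOn ℂ b (ball 0 1))
    (hb1 : ∀ z, ‖z‖ < 1 → ‖b z‖ ≤ 1)
    (H : ∀ f, DifferentiableOn ℂ f (ball 0 1) → (∀ z, ‖z‖ < 1 → ‖b z * f z‖ ≤ 1) → ‖f 0‖ ≤ 1)
    {ρ : ℕ → ℝ} (h0 : ∀ k, 0 < ρ k) (h1 : ∀ k, ρ k < 1) (hρ : Tendsto ρ atTop (𝓝 1)) :
    Tendsto (fun k => circleAverage (fun z => ‖b (ρ k * z)‖) 0 1) atTop (𝓝 1) := by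
  rw [tendsto_iff_ultrafilter]
  intro 𝒰 h𝒰
  set A : ℕ → ℝ := fun k => circleAverage (fun z => ‖b (ρ k * z)‖) 0 1 with hA
  have hA0 : ∀ k, 0 ≤ A k := fun k =>
    circleAverage_nonneg_of_nonneg fun x _ => norm_nonneg _
  have hA1 : ∀ k, A k ≤ 1 := fun k => by
    refine circleAverage_mono_on_of_le_circle (ci_norm hb (h0 k) (h1 k)) fun x hx => ?_
    rw [abs_one, mem_sphere_zero_iff_norm] at hx
    refine hb1 _ ?_
    rw [norm_mul, Complex.norm_real, Real.norm_of_nonneg (h0 k).le, hx, mul_one]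
    exact h1 k
  obtain ⟨L, -, hL⟩ := (isCompact_Icc (a := (0:ℝ)) (b := 1)).ultrafilter_le_nhds (𝒰.map A) (by
    rw [le_principal_iff, Ultrafilter.coe_map, Filter.mem_map]
    exact Filter.univ_mem' fun k => ⟨hA0 k, hA1 k⟩)
  have hL' : Tendsto A 𝒰 (𝓝 L) := hL
  have hL1 : L ≤ 1 := le_of_tendsto hL' (Eventually.of_forall hA1)
  -- the functions
  set f : ℕ → ℂ → ℂ := fun k z => Complex.exp (1 - Hz b (ρ k) z) with hf
  have hfd : ∀ k, DifferentiableOn ℂ (f k) (ball 0 1) := fun k =>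
    ((differentiableOn_const _).sub (Hz_diff hb (h0 k) (h1 k))).cexp
  have hfn : ∀ k z, ‖f k z‖ = Real.exp (1 - (Hz b (ρ k) z).re) := fun k z => by
    rw [hf, Complex.norm_exp]; simp
  have hfb : ∀ k, ∀ z ∈ ball (0:ℂ) 1, ‖f k z‖ ≤ Real.exp 1 := fun k z hz => by
    rw [hfn]
    refine Real.exp_le_exp.2 ?_
    have := (norm_nonneg _).trans (norm_le_Hz_re hb (h0 k) (h1 k) hz)
    linarith
  have hbf : ∀ k, ∀ z ∈ ball (0:ℂ) 1, ‖b (ρ k * z) * f k z‖ ≤ 1 := fun k z hz => by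
    rw [norm_mul, hfn]
    have h3 := norm_le_Hz_re hb (h0 k) (h1 k) hz
    have h4 := Real.add_one_le_exp ((Hz b (ρ k) z).re - 1)
    rw [sub_add_cancel] at h4
    calc ‖b (ρ k * z)‖ * Real.exp (1 - (Hz b (ρ k) z).re)
        ≤ Real.exp ((Hz b (ρ k) z).re - 1) * Real.exp (1 - (Hz b (ρ k) z).re) := by
          gcongr; exact h3.trans h4
      _ = 1 := by rw [← Real.exp_add]; simp
  obtain ⟨g, hg, hgl⟩ := Pool.Agent.Helper114.Montel.montel isOpen_ball f hfd (Real.exp 1) hfb 𝒰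
  have hpt : ∀ z ∈ ball (0:ℂ) 1, Tendsto (fun k => f k z) 𝒰 (𝓝 (g z)) := fun z hz =>
    hgl.tendsto_at hz
  have hρ' : Tendsto ρ 𝒰 (𝓝 1) := hρ.mono_left h𝒰
  have hg1 : ‖g 0‖ ≤ 1 := by
    refine H g hg fun z hz => ?_
    have hz' : z ∈ ball (0:ℂ) 1 := mem_ball_zero_iff.2 hz
    have hc : Tendsto (fun k => b (ρ k * z)) 𝒰 (𝓝 (b z)) := by
      have h5 : ContinuousAt b z := (hb.differentiableAt (isOpen_ball.mem_nhds hz')).continuousAt
      have h6 : Tendsto (fun k => ((ρ k : ℝ) : ℂ) * z) 𝒰 (𝓝 z) := by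
        have := ((Complex.continuous_ofReal.tendsto 1).comp hρ').mul_const z
        simpa using this
      exact h5.tendsto.comp h6
    exact le_of_tendsto ((hc.mul (hpt z hz')).norm) (Eventually.of_forall fun k => hbf k z hz')
  have h00 : (0:ℂ) ∈ ball (0:ℂ) 1 := mem_ball_self one_pos
  have hg0 : ‖g 0‖ = Real.exp (1 - L) := by
    have h7 := (hpt 0 h00).norm
    have h8 : ∀ k, ‖f k 0‖ = Real.exp (1 - A k) := fun k => by
      rw [hfn, Hz_zero hb (h0 k) (h1 k)]; rfl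
    simp only [h8] at h7
    exact tendsto_nhds_unique h7 ((Real.continuous_exp.tendsto _).comp (hL'.const_sub 1))
  have h9 : L = 1 := by
    rw [hg0] at hg1
    have := Real.exp_le_one_iff.1 hg1
    linarith
  rw [h9] at hL'
  exact hL'

end Pool.Agent.Q99.QP
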