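import Mathlib
import Pool.Agent.Q99.QP.Mean
import Pool.Agent.TH222.QP4

/-! Division by Blaschke products, means of `|B|`, and a lemma on boundary values. -/

set_option autoImplicit false

open Filter Topology Metric MeasureTheory Set Real

namespace Pool.Agent.Q99.QP

open Pool.Agent.TH222.QP

/-- Dividing out one zero. -/
lemma div_step {k : ℂ → ℂ} (hk : DifferentiableOn ℂ k (ball 0 1))
    (hk1 : ∀ z, ‖z‖ < 1 → ‖k z‖ ≤ 1) {a : ℂ} (ha : ‖a‖ < 1) (h0 : k a = 0) :
    ∃ k' : ℂ → ℂ, DifferentiableOn ℂ k' (ball 0 1) ∧ (∀ z, ‖z‖ < 1 → ‖k' z‖ ≤ 1) ∧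
      ∀ z, ‖z‖ < 1 → k z = bf a z * k' z := by
  have hna : ‖-a‖ < 1 := by rwa [norm_neg]
  set s : ℂ → ℂ := dslope (fun w => k (mob a w)) 0 with hs
  have hd : DifferentiableOn ℂ (fun w => k (mob a w)) (ball 0 1) :=
    hk.comp (differentiableOn_mob ha) (mapsTo_mob ha)
  have hsd : DifferentiableOn ℂ s (ball 0 1) :=
    (Complex.differentiableOn_dslope (isOpen_ball.mem_nhds (mem_ball_self one_pos))).2 hd
  have hmaps : MapsTo (fun w => k (mob a w)) (ball 0 1) (closedBall (k (mob a 0)) 1) := by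
    intro w hw
    rw [mob_zero, h0, mem_closedBall_zero_iff]
    exact hk1 _ (norm_mob_lt ha (mem_ball_zero_iff.1 hw))
  have hs1 : ∀ w, ‖w‖ < 1 → ‖s w‖ ≤ 1 := fun w hw => by
    have := Complex.norm_dslope_le_div_of_mapsTo_ball hd hmaps (mem_ball_zero_iff.2 hw)
    simpa using this
  have hinv : ∀ z, ‖z‖ < 1 → mob a (mob (-a) z) = z := by
    intro z hz
    have h1 := mob_den_ne hna hz.le
    have h2 := mob_den_ne ha (norm_mob_lt hna hz).le
    have h3 : (1:ℂ) - (starRingEnd ℂ) a * a ≠ 0 := den_ne ha ha.le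
    have h4 : 1 - (starRingEnd ℂ) a * z ≠ 0 := by simpa [sub_eq_add_neg] using h1
    have h5 : (1:ℂ) + (starRingEnd ℂ) a * ((z - a) / (1 - (starRingEnd ℂ) a * z)) =
        (1 - (starRingEnd ℂ) a * a) / (1 - (starRingEnd ℂ) a * z) := by
      field_simp; ring
    have e : mob (-a) z = (z - a) / (1 - (starRingEnd ℂ) a * z) := by
      rw [mob]; simp [sub_eq_add_neg]
    have h6 : (z - a) / (1 - (starRingEnd ℂ) a * z) + a =
        z * ((1 - (starRingEnd ℂ) a * a) / (1 - (starRingEnd ℂ) a * z)) := by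
      rw [div_add' _ _ _ h4, ← mul_div_assoc]
      congr 1
      ring
    rw [mob, e, h5, h6, mul_div_assoc, div_self (div_ne_zero h3 h4), mul_one]
  have hfac : ∀ z, ‖z‖ < 1 → k z = mob (-a) z * s (mob (-a) z) := by
    intro z hz
    have h1 := sub_smul_dslope (fun w => k (mob a w)) 0 (mob (-a) z)
    simp only [sub_zero, smul_eq_mul, mob_zero, h0, hinv z hz] at h1
    exact h1.symm
  -- the unimodular constant
  obtain ⟨c, hc, hcb⟩ : ∃ c : ℂ, ‖c‖ = 1 ∧ ∀ z, bf a z = c * mob (-a) z := by
    by_cases h : a = 0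
    · refine ⟨1, norm_one, fun z => ?_⟩
      rw [bf, if_pos h, h, mob]; simp
    · refine ⟨-((‖a‖ : ℂ) / a), ?_, fun z => ?_⟩
      · rw [norm_neg, norm_div, Complex.norm_real, norm_norm, div_self (norm_ne_zero_iff.2 h)]
      · rw [bf, if_neg h, mob]
        simp only [map_neg, neg_mul, ← sub_eq_add_neg]
        rw [show a - z = -(z - a) by ring, neg_div]
        ring
  have hc0 : c ≠ 0 := fun h => by rw [h, norm_zero] at hc; exact zero_ne_one hc
  refine ⟨fun z => c⁻¹ * s (mob (-a) z), ?_, ?_, ?_⟩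
  · exact (differentiableOn_const _).mul (hsd.comp (differentiableOn_mob hna) (mapsTo_mob hna))
  · intro z hz
    rw [norm_mul, norm_inv, hc, inv_one, one_mul]
    exact hs1 _ (norm_mob_lt hna hz)
  · intro z hz
    rw [hfac z hz, hcb]
    field_simp

/-- Division by a Blaschke product with simple zeros. -/
theorem divide {β : ℕ → ℂ} (h : BSeq β) (hinj : Function.Injective β) {k : ℂ → ℂ}
    (hk : DifferentiableOn ℂ k (ball 0 1)) (hk1 : ∀ z, ‖z‖ < 1 → ‖k z‖ ≤ 1)
    (h0 : ∀ j, k (β j) = 0) :
    ∃ g : ℂ → ℂ, DifferentiableOn ℂ g (ball 0 1) ∧ (∀ z, ‖z‖ < 1 → ‖g z‖ ≤ 1) ∧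
      ∀ z, ‖z‖ < 1 → k z = B β z * g z := by
  have key : ∀ n : ℕ, ∃ g : ℂ → ℂ, DifferentiableOn ℂ g (ball 0 1) ∧
      (∀ z, ‖z‖ < 1 → ‖g z‖ ≤ 1) ∧
      ∀ z, ‖z‖ < 1 → k z = (∏ j ∈ Finset.range n, bf (β j) z) * g z := by
    intro n
    induction n with
    | zero => exact ⟨k, hk, hk1, fun z _ => by simp⟩
    | succ n ih =>
      obtain ⟨g, hg, hg1, hge⟩ := ih
      have hz : g (β n) = 0 := by
        have h1 := hge (β n) (h.lt_one n)
        rw [h0 n] at h1
        rcases mul_eq_zero.1 h1.symm with h2 | h2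
        · obtain ⟨j, hj, hj2⟩ := Finset.prod_eq_zero_iff.1 h2
          have := hinj (bf_eq_zero (h.lt_one j) (h.lt_one n) hj2)
          rw [Finset.mem_range] at hj
          omega
        · exact h2
      obtain ⟨g', hg', hg1', hge'⟩ := div_step hg hg1 (h.lt_one n) hz
      refine ⟨g', hg', hg1', fun z hz => ?_⟩
      rw [hge z hz, hge' z hz, Finset.prod_range_succ]
      ring
  choose g hg hg1 hge using key
  set 𝒰 : Ultrafilter ℕ := hyperfilter ℕ with h𝒰
  have h𝒰' : (𝒰 : Filter ℕ) ≤ atTop := by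
    rw [h𝒰]; exact Nat.hyperfilter_le_atTop
  obtain ⟨G, hG, hGl⟩ := Pool.Agent.Helper114.Montel.montel isOpen_ball g hg 1
    (fun n z hz => hg1 n z (mem_ball_zero_iff.1 hz)) 𝒰
  refine ⟨G, hG, fun z hz => ?_, fun z hz => ?_⟩
  · exact le_of_tendsto (hGl.tendsto_at (mem_ball_zero_iff.2 hz)).norm
      (Eventually.of_forall fun n => hg1 n z hz)
  · have h1 := ((h.hasProd hz).tendsto_prod_nat.mono_left h𝒰').mul
      (hGl.tendsto_at (mem_ball_zero_iff.2 hz))
    have h2 : (fun n => (∏ j ∈ Finset.range n, bf (β j) z) * g n z) = fun _ => k z := by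
      funext n; exact (hge n z hz).symm
    rw [h2] at h1
    exact tendsto_nhds_unique tendsto_const_nhds h1

/-- Means of `|B|`. -/
theorem mean_B {β : ℕ → ℂ} (h : BSeq β) :
    Tendsto (fun k => circleAverage (fun z => ‖B β (rk k * z)‖) 0 1) atTop (𝓝 1) := by
  have h0 : ‖(0:ℂ)‖ < 1 := by simp
  have h1 := tendsto_B h h0
  have e1 : ∀ k t, gm 0 k t = rk k * circleMap 0 1 t := by
    intro k t
    rw [gm, mob]; simp [circleMap]
  have e2 : ∀ k, ∫⁻ t, ENNReal.ofReal (1 - ‖B β (gm 0 k t)‖) ∂mu =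
      ENNReal.ofReal (2 * π * (1 - circleAverage (fun z => ‖B β (rk k * z)‖) 0 1)) := by
    intro k
    have hi : Integrable (fun t => ‖B β (rk k * circleMap 0 1 t)‖) mu :=
      integrable_mu_of_circleIntegrable (ci_norm h.differentiableOn (rk_pos k) (rk_lt k))
    have hi1 : Integrable (fun t => 1 - ‖B β (rk k * circleMap 0 1 t)‖) mu :=
      (integrable_const 1).sub hi
    simp_rw [e1]
    rw [← ofReal_integral_eq_lintegral_ofReal hi1 (Eventually.of_forall fun t => ?_)]
    · congr 1
      have hmu : mu.real univ = 2 * Real.pi := by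
        rw [measureReal_def, mu_univ, ENNReal.toReal_ofReal Pool.Agent.TH222.QP.two_pi_pos.le]
      have h2 := circleAverage_mu (fun z => ‖B β (rk k * z)‖) 0 1
      rw [integral_sub (integrable_const 1) hi, integral_const, hmu, ← h2, smul_eq_mul,
        smul_eq_mul]
      ring
    · have := h.norm_B_le (z := rk k * circleMap 0 1 t) (by
        rw [norm_mul, Complex.norm_real, Real.norm_of_nonneg (rk_pos k).le,
          norm_circleMap_zero' zero_le_one, mul_one]
        exact rk_lt k)
      simpa using this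
  simp_rw [e2] at h1
  have h3 : ∀ k, 0 ≤ 1 - circleAverage (fun z => ‖B β (rk k * z)‖) 0 1 := by
    intro k
    have : circleAverage (fun z => ‖B β (rk k * z)‖) 0 1 ≤ 1 :=
      circleAverage_mono_on_of_le_circle (ci_norm h.differentiableOn (rk_pos k) (rk_lt k))
        fun x hx => by
        rw [abs_one, mem_sphere_zero_iff_norm] at hx
        refine h.norm_B_le ?_
        rw [norm_mul, Complex.norm_real, Real.norm_of_nonneg (rk_pos k).le, hx, mul_one]
        exact rk_lt k
    linarith
  have h4 := (ENNReal.tendsto_toReal ENNReal.zero_ne_top).comp h1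
  have h5 : Tendsto (fun k => 2 * π * (1 - circleAverage (fun z => ‖B β (rk k * z)‖) 0 1)) atTop
      (𝓝 0) := by
    refine h4.congr fun k => ?_
    simp only [Function.comp]
    rw [ENNReal.toReal_ofReal (mul_nonneg (by positivity) (h3 k))]
  have h6 := (h5.const_mul (2 * π)⁻¹).const_sub 1
  simp only [mul_zero, sub_zero] at h6
  refine h6.congr fun k => ?_
  rw [← mul_assoc, inv_mul_cancel₀ (by positivity), one_mul]
  ring

/-- If `conj F` and `G` are close in mean near the circle, then `F` is constant. -/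
theorem const_of_mean {F G : ℂ → ℂ} (hF : DifferentiableOn ℂ F (ball 0 1))
    (hG : DifferentiableOn ℂ G (ball 0 1))
    (h : Tendsto (fun k => circleAverage (fun z => ‖(starRingEnd ℂ) (F (rk k * z)) -
      G (rk k * z)‖) 0 1) atTop (𝓝 0)) {a : ℂ} (ha : ‖a‖ < 1) : (starRingEnd ℂ) (F a) = G 0 := by
  have ha' : a ∈ ball (0:ℂ) |1| := by rw [abs_one, mem_ball_zero_iff]; exact ha
  have hca : ‖(starRingEnd ℂ) a‖ < 1 := by rwa [RCLike.norm_conj]
  have hden : ∀ z : ℂ, ‖z‖ ≤ 1 → 1 - (starRingEnd ℂ) a * z ≠ 0 := fun z hz => den_ne ha hz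
  -- the identity for each radius
  have hid : ∀ k, (starRingEnd ℂ) (F (rk k * a)) - G 0 =
      circleAverage (fun z => (1 - (starRingEnd ℂ) a * z)⁻¹ *
        ((starRingEnd ℂ) (F (rk k * z)) - G (rk k * z))) 0 1 := by
    intro k
    have hFk := dil hF (rk_pos k) (rk_lt k)
    have hGk := dil hG (rk_pos k) (rk_lt k)
    have h1 : circleAverage (fun z => (z - 0) / (z - a) * F (rk k * z)) 0 1 = F (rk k * a) := by
      have := DiffContOnCl.circleAverage_smul_div (c := 0) (R := 1) (w := a)
        (f := fun z => F (rk k * z)) (by rw [abs_one]; exact hFk) ha'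
      simpa [smul_eq_mul] using this
    have hcF : ContinuousOn (fun z : ℂ => F (rk k * z)) (sphere 0 1) := by
      have := hFk.continuousOn
      rw [closure_ball _ one_ne_zero] at this
      exact this.mono sphere_subset_closedBall
    have hcG : ContinuousOn (fun z : ℂ => G (rk k * z)) (sphere 0 1) := by
      have := hGk.continuousOn
      rw [closure_ball _ one_ne_zero] at this
      exact this.mono sphere_subset_closedBall
    have hcK : ContinuousOn (fun z : ℂ => (1 - (starRingEnd ℂ) a * z)⁻¹) (closedBall 0 1) := by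
      refine ContinuousOn.inv₀ (by fun_prop) fun z hz => hden z (mem_closedBall_zero_iff.1 hz)
    have hne : ∀ z ∈ sphere (0:ℂ) 1, z - a ≠ 0 := fun z hz h0 => by
      rw [mem_sphere_zero_iff_norm] at hz
      rw [sub_eq_zero.1 h0] at hz
      linarith
    have hi1 : CircleIntegrable (fun z => (z - 0) / (z - a) * F (rk k * z)) 0 1 := by
      refine ContinuousOn.circleIntegrable zero_le_one ?_
      exact (ContinuousOn.div (by fun_prop) (by fun_prop) hne).mul hcF
    have h2 : (starRingEnd ℂ) (F (rk k * a)) = circleAverage (fun z =>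
        (1 - (starRingEnd ℂ) a * z)⁻¹ * (starRingEnd ℂ) (F (rk k * z))) 0 1 := by
      have h3 := (Complex.conjCLE : ℂ →L[ℝ] ℂ).circleAverage_comp_comm hi1
      rw [h1] at h3
      have h4 : (starRingEnd ℂ) (F (rk k * a)) =
        (Complex.conjCLE : ℂ →L[ℝ] ℂ) (F (rk k * a)) := by simp
      rw [h4, ← h3]
      refine circleAverage_congr_sphere fun z hz => ?_
      rw [abs_one] at hz
      have hz1 : z * (starRingEnd ℂ) z = 1 := by
        rw [Complex.mul_conj, Complex.normSq_eq_norm_sq, mem_sphere_zero_iff_norm.1 hz]; simp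
      have hz0 : z ≠ 0 := fun h0 => by rw [h0] at hz1; simp at hz1
      have hzc : (starRingEnd ℂ) z = z⁻¹ := eq_inv_of_mul_eq_one_right hz1
      simp only [Function.comp, sub_zero, ContinuousLinearEquiv.coe_coe, Complex.conjCLE_apply,
        map_mul, map_div₀, map_sub, hzc]
      congr 1
      have h5 := hden z (by rw [mem_sphere_zero_iff_norm.1 hz])
      have h6 : z⁻¹ - (starRingEnd ℂ) a = (1 - (starRingEnd ℂ) a * z) / z := by
        field_simp
      rw [h6]
      field_simp
    have h3 : circleAverage (fun z => (1 - (starRingEnd ℂ) a * z)⁻¹ * G (rk k * z)) 0 1 = G 0 := by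
      have hd : DiffContOnCl ℂ (fun z => (1 - (starRingEnd ℂ) a * z)⁻¹ * G (rk k * z))
          (ball 0 |1|) := by
        rw [abs_one]
        refine ⟨?_, ?_⟩
        · refine DifferentiableOn.mul ?_ hGk.differentiableOn
          refine DifferentiableOn.inv (by fun_prop) fun z hz => hden z (mem_ball_zero_iff.1 hz).le
        · rw [closure_ball _ one_ne_zero]
          refine hcK.mul ?_
          have := hGk.continuousOn
          rwa [closure_ball _ one_ne_zero] at this
      have := hd.circleAverage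
      simpa using this
    have hi2 : CircleIntegrable (fun z => (1 - (starRingEnd ℂ) a * z)⁻¹ *
        (starRingEnd ℂ) (F (rk k * z))) 0 1 :=
      ContinuousOn.circleIntegrable zero_le_one ((hcK.mono sphere_subset_closedBall).mul
        (Complex.continuous_conj.comp_continuousOn hcF))
    have hi3 : CircleIntegrable (fun z => (1 - (starRingEnd ℂ) a * z)⁻¹ * G (rk k * z)) 0 1 :=
      ContinuousOn.circleIntegrable zero_le_one ((hcK.mono sphere_subset_closedBall).mul hcG)
    have h7 := circleAverage_sub hi2 hi3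
    rw [h2, h3.symm, ← h7]
    refine circleAverage_congr_sphere fun z _ => ?_
    simp only [Pi.sub_apply]
    ring
  -- the estimate
  have hest : ∀ k, ‖(starRingEnd ℂ) (F (rk k * a)) - G 0‖ ≤ (1 - ‖a‖)⁻¹ *
      circleAverage (fun z => ‖(starRingEnd ℂ) (F (rk k * z)) - G (rk k * z)‖) 0 1 := by
    intro k
    have hFk := (dil hF (rk_pos k) (rk_lt k)).continuousOn
    have hGk := (dil hG (rk_pos k) (rk_lt k)).continuousOn
    rw [closure_ball _ one_ne_zero] at hFk hGk
    have hc : ContinuousOn (fun z : ℂ => (starRingEnd ℂ) (F (rk k * z)) - G (rk k * z))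
        (sphere 0 1) :=
      ((Complex.continuous_conj.comp_continuousOn hFk).sub hGk).mono sphere_subset_closedBall
    have hcK : ContinuousOn (fun z : ℂ => (1 - (starRingEnd ℂ) a * z)⁻¹) (sphere 0 1) := by
      refine ContinuousOn.inv₀ (by fun_prop) fun z hz => hden z (by
        rw [mem_sphere_zero_iff_norm] at hz; exact hz.le)
    rw [hid k]
    refine norm_circleAverage_le.trans ?_
    have h8 := circleAverage_fun_smul (a := (1 - ‖a‖)⁻¹) (c := 0) (R := 1)
      (f := fun z => ‖(starRingEnd ℂ) (F (rk k * z)) - G (rk k * z)‖)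
    simp only [smul_eq_mul] at h8
    rw [← h8]
    refine circleAverage_mono ?_ ?_ fun z hz => ?_
    · exact ContinuousOn.circleIntegrable zero_le_one (hcK.mul hc).norm
    · exact ContinuousOn.circleIntegrable zero_le_one (continuousOn_const.mul hc.norm)
    · rw [abs_one, mem_sphere_zero_iff_norm] at hz
      rw [norm_mul, norm_inv]
      have h9 := norm_den_ge (a := a) (z := z) ha.le
      have h10 : 1 - ‖a‖ ≤ ‖1 - (starRingEnd ℂ) a * z‖ := norm_den_ge' hz.le
      have h11 : 0 < 1 - ‖a‖ := by linarith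
      gcongr
  have hlim1 : Tendsto (fun k => ‖(starRingEnd ℂ) (F (rk k * a)) - G 0‖) atTop (𝓝 0) := by
    refine squeeze_zero (fun k => norm_nonneg _) hest ?_
    have := h.const_mul (1 - ‖a‖)⁻¹
    rwa [mul_zero] at this
  have hlim2 : Tendsto (fun k => ‖(starRingEnd ℂ) (F (rk k * a)) - G 0‖) atTop
      (𝓝 ‖(starRingEnd ℂ) (F a) - G 0‖) := by
    have h5 : ContinuousAt F a :=
      (hF.differentiableAt (isOpen_ball.mem_nhds (mem_ball_zero_iff.2 ha))).continuousAt
    have h6 : Tendsto (fun k => ((rk k : ℝ) : ℂ) * a) atTop (𝓝 a) := by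
      have := ((Complex.continuous_ofReal.tendsto 1).comp tendsto_rk).mul_const a
      simpa using this
    exact (((Complex.continuous_conj.tendsto _).comp (h5.tendsto.comp h6)).sub_const _).norm
  have h7 := tendsto_nhds_unique hlim2 hlim1
  exact sub_eq_zero.1 (norm_eq_zero.1 h7)

end Pool.Agent.Q99.QP
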