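import Mathlib

/-! The pointwise estimate. -/

set_option autoImplicit false

namespace Pool.Agent.Q99.QP

lemma est {a a' c c' w g ξ : ℂ} (ha : ‖a‖ < 1) (ha' : ‖a'‖ < 1) (hc : ‖c‖ < 1) (hc' : ‖c'‖ < 1)
    (hw : ‖w‖ < 1) (hξ : ‖ξ‖ < 1) (hg : ‖g‖ ≤ 1) (hwg : w * ((a - a') / 2) = w ^ 2 * g)
    (h1 : a * c * (1 - (starRingEnd ℂ) ξ * w) = ξ - w)
    (h2 : a' * c' * (1 + (starRingEnd ℂ) ξ * w) = ξ + w) :
    ‖(starRingEnd ℂ) ((1 - (starRingEnd ℂ) ξ ^ 2 * w ^ 2) * g) -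
      c * c' * ((1 - (starRingEnd ℂ) ξ ^ 2 * w ^ 2) * g)‖ ≤
      8 * ((1 - ‖w ^ 2‖) + (1 - ‖a * a'‖)) := by
  set h : ℂ := 1 - (starRingEnd ℂ) ξ ^ 2 * w ^ 2 with hh
  set F : ℂ := h * g with hF
  set b1 : ℂ := a * a' with hb1
  set b2 : ℂ := c * c' with hb2
  have hb1n : ‖b1‖ ≤ 1 := by rw [hb1, norm_mul]; nlinarith [norm_nonneg a, norm_nonneg a']
  have hb2n : ‖b2‖ ≤ 1 := by rw [hb2, norm_mul]; nlinarith [norm_nonneg c, norm_nonneg c']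
  have hw2 : ‖w ^ 2‖ ≤ 1 := by rw [norm_pow]; nlinarith [norm_nonneg w]
  have hξ2 : ‖ξ ^ 2‖ ≤ 1 := by rw [norm_pow]; nlinarith [norm_nonneg ξ]
  have hhn : ‖h‖ ≤ 2 := by
    rw [hh]
    refine (norm_sub_le _ _).trans ?_
    rw [norm_one, norm_mul, norm_pow, RCLike.norm_conj, ← norm_pow]
    nlinarith [norm_nonneg (ξ ^ 2), norm_nonneg (w ^ 2)]
  have hFn : ‖F‖ ≤ 2 := by
    rw [hF, norm_mul]; nlinarith [norm_nonneg h, norm_nonneg g]
  have htriv : ‖(starRingEnd ℂ) F - b2 * F‖ ≤ 4 := by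
    refine (norm_sub_le _ _).trans ?_
    rw [RCLike.norm_conj, norm_mul b2 F]
    nlinarith [norm_nonneg F, norm_nonneg b2]
  by_cases hw0 : w = 0
  · have h3 : ‖w ^ 2‖ = 0 := by rw [hw0]; simp
    rw [h3]
    linarith
  · set δ : ℝ := 1 - ‖w ^ 2‖ with hδ
    set η : ℝ := 1 - ‖b1‖ with hη
    have hδ0 : 0 ≤ δ := by linarith
    have hη0 : 0 ≤ η := by linarith
    -- (1)
    set E1 : ℂ := (a * (starRingEnd ℂ) a - 1) * a' - (a' * (starRingEnd ℂ) a' - 1) * a with hE1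
    have hsq : ∀ u : ℂ, ‖u‖ < 1 → ‖u * (starRingEnd ℂ) u - 1‖ = 1 - ‖u‖ ^ 2 := fun u hu => by
      rw [Complex.mul_conj, Complex.normSq_eq_norm_sq]
      rw [show (((‖u‖ ^ 2 : ℝ) : ℂ) - 1) = ((‖u‖ ^ 2 - 1 : ℝ) : ℂ) by push_cast; rfl,
        Complex.norm_real, Real.norm_eq_abs, abs_sub_comm, abs_of_nonneg]
      nlinarith [norm_nonneg u]
    have hE1n : ‖E1‖ ≤ 4 * η := by
      rw [hE1]
      refine (norm_sub_le _ _).trans ?_
      rw [norm_mul, norm_mul, hsq a ha, hsq a' ha', hη, hb1, norm_mul]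
      have e1 : 1 - ‖a‖ ^ 2 ≤ 2 * (1 - ‖a‖ * ‖a'‖) := by nlinarith [norm_nonneg a, norm_nonneg a']
      have e2 : 1 - ‖a'‖ ^ 2 ≤ 2 * (1 - ‖a‖ * ‖a'‖) := by
        nlinarith [norm_nonneg a, norm_nonneg a']
      have e3 : 0 ≤ 1 - ‖a‖ ^ 2 := by nlinarith [norm_nonneg a]
      have e4 : 0 ≤ 1 - ‖a'‖ ^ 2 := by nlinarith [norm_nonneg a']
      nlinarith [norm_nonneg a, norm_nonneg a']
    have k1 : b1 * ((starRingEnd ℂ) a - (starRingEnd ℂ) a') = -(a - a') + E1 := by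
      rw [hb1, hE1]; ring
    have hwg' : a - a' = 2 * w * g := by
      have h3 : w * ((a - a') - 2 * w * g) = 0 := by linear_combination 2 * hwg
      rcases mul_eq_zero.1 h3 with h4 | h4
      · exact absurd h4 hw0
      · exact sub_eq_zero.1 h4
    have hcg : (starRingEnd ℂ) a - (starRingEnd ℂ) a' =
        2 * (starRingEnd ℂ) w * (starRingEnd ℂ) g := by
      rw [← map_sub, hwg', map_mul, map_mul, map_ofNat]
    set E2 : ℂ := (1 - w * (starRingEnd ℂ) w) * (b1 * (starRingEnd ℂ) g) + w * E1 / 2 with hE2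
    have k2 : b1 * (starRingEnd ℂ) g = -(w ^ 2 * g) + E2 := by
      rw [hcg] at k1
      rw [hwg'] at k1
      rw [hE2]
      linear_combination (w / 2) * k1
    have hE2n : ‖E2‖ ≤ δ + 2 * η := by
      rw [hE2]
      refine (norm_add_le _ _).trans ?_
      have e1 : ‖(1 - w * (starRingEnd ℂ) w)‖ = δ := by
        rw [norm_sub_rev, hsq w hw, hδ, norm_pow]
      have e2 : ‖b1 * (starRingEnd ℂ) g‖ ≤ 1 := by
        rw [norm_mul, RCLike.norm_conj]; nlinarith [norm_nonneg b1, norm_nonneg g]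
      rw [norm_mul, e1, norm_div, norm_mul w E1, show ‖(2:ℂ)‖ = 2 by norm_num]
      have e3 := mul_nonneg hδ0 (sub_nonneg.2 e2)
      have e4 := mul_nonneg (norm_nonneg E1) (sub_nonneg.2 hw.le)
      nlinarith
    -- (3)
    have hprod : b1 * b2 * h = ξ ^ 2 - w ^ 2 := by
      rw [hb1, hb2, hh]
      calc a * a' * (c * c') * (1 - (starRingEnd ℂ) ξ ^ 2 * w ^ 2)
          = (a * c * (1 - (starRingEnd ℂ) ξ * w)) * (a' * c' * (1 + (starRingEnd ℂ) ξ * w)) := by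
            ring
        _ = ξ ^ 2 - w ^ 2 := by rw [h1, h2]; ring
    set E3 : ℂ := ξ ^ 2 * (1 - w ^ 2 * (starRingEnd ℂ) (w ^ 2)) with hE3
    have hch : (starRingEnd ℂ) h = 1 - ξ ^ 2 * (starRingEnd ℂ) (w ^ 2) := by
      rw [hh]; simp
    have k3 : w ^ 2 * (starRingEnd ℂ) h = -(b1 * b2 * h) + E3 := by
      rw [hprod, hch, hE3]; ring
    have hE3n : ‖E3‖ ≤ 2 * δ := by
      rw [hE3, norm_mul, norm_sub_rev]
      have e1 : ‖w ^ 2 * (starRingEnd ℂ) (w ^ 2) - 1‖ = 1 - ‖w ^ 2‖ ^ 2 :=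
        hsq _ (by rw [norm_pow]; nlinarith [norm_nonneg w])
      rw [e1, hδ]
      have e2 : 0 ≤ 1 - ‖w ^ 2‖ ^ 2 := by nlinarith [norm_nonneg (w ^ 2)]
      have e3 := mul_nonneg (sub_nonneg.2 hξ2) e2
      nlinarith [sq_nonneg (1 - ‖w ^ 2‖)]
    -- (4)
    set E4 : ℂ := -(b1 * b2 * h * E2) + E3 * (b1 * (starRingEnd ℂ) g) with hE4
    have k4 : w ^ 2 * b1 * ((starRingEnd ℂ) F - b2 * F) = E4 := by
      have e1 : (starRingEnd ℂ) F = (starRingEnd ℂ) h * (starRingEnd ℂ) g := by rw [hF, map_mul]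
      rw [e1, hF, hE4]
      linear_combination (b1 * (starRingEnd ℂ) g) * k3 - (b1 * b2 * h) * k2
    have hE4n : ‖E4‖ ≤ 4 * δ + 4 * η := by
      rw [hE4]
      refine (norm_add_le _ _).trans ?_
      have e1 : ‖b1 * b2 * h‖ ≤ 2 := by
        rw [norm_mul, norm_mul]
        have : ‖b1‖ * ‖b2‖ ≤ 1 := by nlinarith [norm_nonneg b1, norm_nonneg b2]
        nlinarith [norm_nonneg b1, norm_nonneg b2, norm_nonneg h, mul_nonneg (norm_nonneg b1)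
          (norm_nonneg b2)]
      have e2 : ‖b1 * (starRingEnd ℂ) g‖ ≤ 1 := by
        rw [norm_mul, RCLike.norm_conj]; nlinarith [norm_nonneg b1, norm_nonneg g]
      rw [norm_neg, norm_mul (b1 * b2 * h), norm_mul E3]
      nlinarith [norm_nonneg (b1 * b2 * h), norm_nonneg E2, norm_nonneg E3,
        norm_nonneg (b1 * (starRingEnd ℂ) g)]
    -- (5)
    have k5 : ‖w ^ 2‖ * ‖b1‖ * ‖(starRingEnd ℂ) F - b2 * F‖ ≤ 4 * δ + 4 * η := by
      rw [← norm_mul, ← norm_mul, k4]; exact hE4n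
    have k6 : 1 - ‖w ^ 2‖ * ‖b1‖ ≤ δ + η := by
      rw [hδ, hη]; nlinarith [norm_nonneg (w ^ 2), norm_nonneg b1]
    have k7 : 0 ≤ 1 - ‖w ^ 2‖ * ‖b1‖ := by nlinarith [norm_nonneg (w ^ 2), norm_nonneg b1]
    nlinarith [norm_nonneg ((starRingEnd ℂ) F - b2 * F)]

end Pool.Agent.Q99.QP
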