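import Mathlib
import Pool.Agent.Q99.QP.Disc
import Pool.Agent.Q99.QP.Est

/-! The argument, for an algebra of functions on a two-sheeted covering of the disc. -/

set_option autoImplicit false

open Filter Topology Metric MeasureTheory Set Real

namespace Pool.Agent.Q99.QP

open Pool.Agent.TH222.QP

/-- What is used about the holomorphic functions `Hol` on a two-sheeted covering `φ` of the disc
with sheet interchange `σ`. -/
structure Alg {X : Type} (Hol : (X → ℂ) → Prop) (φ : X → ℂ) (σ : X → X) : Prop where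
  lt_one : ∀ x, ‖φ x‖ < 1
  surj : ∀ z : ℂ, ‖z‖ < 1 → ∃ x, φ x = z
  phi_sig : ∀ x, φ (σ x) = φ x
  sig_sig : ∀ x, σ (σ x) = x
  mul : ∀ f g, Hol f → Hol g → Hol fun x => f x * g x
  add : ∀ f g, Hol f → Hol g → Hol fun x => f x + g x
  comp : ∀ F, DifferentiableOn ℂ F (ball 0 1) → Hol fun x => F (φ x)
  sig : ∀ f, Hol f → Hol fun x => f (σ x)
  desc : ∀ f, Hol f → (∀ x, f (σ x) = f x) →
    ∃ F : ℂ → ℂ, DifferentiableOn ℂ F (ball 0 1) ∧ ∀ x, f x = F (φ x)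

/-- Quasi-proper maps, with respect to a class of holomorphic functions. -/
def QPr {X : Type} (Hol : (X → ℂ) → Prop) (θ : X → ℂ) : Prop :=
  Hol θ ∧ (∀ p, ‖θ p‖ < 1) ∧ ∀ f : X → ℂ, Hol f → ⨆ p, ‖f p‖ₑ = ⨆ p, ‖θ p * f p‖ₑ

section

variable {X : Type} {Hol : (X → ℂ) → Prop} {φ : X → ℂ} {σ : X → X} (A : Alg Hol φ σ)

include A

lemma Alg.const (c : ℂ) : Hol fun _ => c := A.comp (fun _ => c) (differentiableOn_const _)

lemma Alg.sub {f g : X → ℂ} (hf : Hol f) (hg : Hol g) : Hol fun x => f x - g x := by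
  have h1 := A.add f _ hf (A.mul _ g (A.const (-1)) hg)
  have e : (fun x => f x + (-1) * g x) = fun x => f x - g x := by funext x; ring
  rwa [e] at h1

/-- The norm of a quasi-proper map has means tending to one. -/
lemma Alg.norm_means {θ : X → ℂ} (hθ : QPr Hol θ) {b : ℂ → ℂ}
    (hb : DifferentiableOn ℂ b (ball 0 1)) (hbe : ∀ x, θ x * θ (σ x) = b (φ x)) :
    Tendsto (fun k => circleAverage (fun z => ‖b (rk k * z)‖) 0 1) atTop (𝓝 1) := by
  refine means hb ?_ ?_ rk_pos rk_lt tendsto_rk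
  · intro z hz
    obtain ⟨x, rfl⟩ := A.surj z hz
    rw [← hbe, norm_mul]
    have h1 := (hθ.2.1 x).le
    have h2 := (hθ.2.1 (σ x)).le
    nlinarith [norm_nonneg (θ x), norm_nonneg (θ (σ x))]
  · intro f hf hf1
    obtain ⟨x0, hx0⟩ := A.surj 0 (by simp)
    have hfh := A.comp f hf
    have h1 := hθ.2.2 _ hfh
    have h2 : ⨆ x, ‖θ x * f (φ x)‖ₑ = ⨆ x, ‖θ (σ x) * f (φ x)‖ₑ := by
      let e : X ≃ X := Function.Involutive.toPerm σ A.sig_sig
      rw [← e.iSup_comp (g := fun x => ‖θ x * f (φ x)‖ₑ)]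
      refine iSup_congr fun x => ?_
      show ‖θ (σ x) * f (φ (σ x))‖ₑ = _
      rw [A.phi_sig]
    have h3 := hθ.2.2 _ (A.mul _ _ (A.sig _ hθ.1) hfh)
    have h4 : ⨆ x, ‖θ x * (θ (σ x) * f (φ x))‖ₑ ≤ 1 := by
      refine iSup_le fun x => ?_
      rw [← mul_assoc, hbe]
      have := hf1 (φ x) (A.lt_one x)
      rw [← ofReal_norm]
      exact ENNReal.ofReal_le_one.2 this
    have h5 : ‖f (φ x0)‖ₑ ≤ 1 := by
      refine (le_iSup (fun x => ‖f (φ x)‖ₑ) x0).trans ?_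
      rw [h1, h2, h3]
      exact h4
    rw [hx0, ← ofReal_norm] at h5
    exact ENNReal.ofReal_le_one.1 h5

end

lemma circle_avg_one_sub {b : ℂ → ℂ} (hb : DifferentiableOn ℂ b (ball 0 1)) (k : ℕ) :
    circleAverage (fun z => 1 - ‖b (rk k * z)‖) 0 1 =
      1 - circleAverage (fun z => ‖b (rk k * z)‖) 0 1 := by
  have h1 := circleAverage_sub (c := 0) (R := 1) (f₁ := fun _ : ℂ => (1:ℝ))
    (f₂ := fun z => ‖b (rk k * z)‖) (ContinuousOn.circleIntegrable zero_le_one continuousOn_const)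
    (ci_norm hb (rk_pos k) (rk_lt k))
  rw [circleAverage_const] at h1
  rw [← h1]
  rfl

lemma eq_zero_of_mul {f g : ℂ → ℂ} (hf : DifferentiableOn ℂ f (ball 0 1))
    (hg : DifferentiableOn ℂ g (ball 0 1)) (h : ∀ z, ‖z‖ < 1 → f z * g z = 0) :
    (∀ z, ‖z‖ < 1 → f z = 0) ∨ ∀ z, ‖z‖ < 1 → g z = 0 := by
  have h1 := AnalyticOnNhd.eq_zero_or_eq_zero_of_mul_eq_zero (hf.analyticOnNhd isOpen_ball)
    (hg.analyticOnNhd isOpen_ball) (fun z hz => h z (mem_ball_zero_iff.1 hz))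
    (convex_ball (0:ℂ) 1).isPreconnected
  rcases h1 with h1 | h1
  · exact Or.inl fun z hz => h1 z (mem_ball_zero_iff.2 hz)
  · exact Or.inr fun z hz => h1 z (mem_ball_zero_iff.2 hz)

lemma B_not_zero {β : ℕ → ℂ} (h : BSeq β) : ¬ ∀ z, ‖z‖ < 1 → B β z = 0 := by
  intro h0
  have h1 := mean_B h
  have h2 : ∀ k, circleAverage (fun z => ‖B β (rk k * z)‖) 0 1 = 0 := by
    intro k
    refine circleAverage_const_on_circle fun z hz => ?_
    rw [abs_one, mem_sphere_zero_iff_norm] at hz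
    rw [h0, norm_zero]
    rw [norm_mul, Complex.norm_real, Real.norm_of_nonneg (rk_pos k).le, hz, mul_one]
    exact rk_lt k
  simp only [h2] at h1
  exact zero_ne_one (tendsto_nhds_unique tendsto_const_nhds h1)

/-- `B` has no holomorphic square root on the disc. -/
lemma no_root {β : ℕ → ℂ} (h : BSeq β) (hinj : Function.Injective β) {G : ℂ → ℂ}
    (hG : DifferentiableOn ℂ G (ball 0 1)) (hG2 : ∀ z, ‖z‖ < 1 → G z ^ 2 = B β z) : False := by
  have hG1 : ∀ z, ‖z‖ < 1 → ‖G z‖ ≤ 1 := fun z hz => by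
    have h1 := congrArg norm (hG2 z hz)
    rw [norm_pow] at h1
    have h2 := h.norm_B_le hz
    nlinarith [norm_nonneg (G z)]
  have h0 : G (β 0) = 0 := by
    have h1 := hG2 (β 0) (h.lt_one 0)
    rw [h.B_zero 0] at h1
    exact pow_eq_zero_iff two_ne_zero |>.1 h1
  obtain ⟨G', hG', -, hGe⟩ := div_step hG hG1 (h.lt_one 0) h0
  have hB1 : ∀ z, ‖z‖ < 1 → z ≠ β 0 → B (fun k => β (k + 1)) z = bf (β 0) z * G' z ^ 2 := by
    intro z hz hne
    have h2 := hG2 z hz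
    rw [hGe z hz, h.B_split 1 hz, Finset.prod_range_one] at h2
    have h3 : bf (β 0) z ≠ 0 := fun h4 => hne (bf_eq_zero (h.lt_one 0) hz h4)
    have h5 : bf (β 0) z * (B (fun k => β (k + 1)) z - bf (β 0) z * G' z ^ 2) = 0 := by
      linear_combination -h2
    rcases mul_eq_zero.1 h5 with h6 | h6
    · exact absurd h6 h3
    · exact sub_eq_zero.1 h6
  have hmem : β 0 ∈ ball (0:ℂ) 1 := mem_ball_zero_iff.2 (h.lt_one 0)
  have hc1 : ContinuousAt (B (fun k => β (k + 1))) (β 0) :=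
    ((h.shift 1).differentiableOn.differentiableAt (isOpen_ball.mem_nhds hmem)).continuousAt
  have hc2 : ContinuousAt (fun z => bf (β 0) z * G' z ^ 2) (β 0) :=
    (((differentiableOn_bf (h.lt_one 0)).mul (hG'.pow 2)).differentiableAt
      (isOpen_ball.mem_nhds hmem)).continuousAt
  have hev : B (fun k => β (k + 1)) =ᶠ[𝓝[≠] (β 0)] fun z => bf (β 0) z * G' z ^ 2 := by
    have h7 : ball (0:ℂ) 1 ∈ 𝓝[≠] (β 0) := mem_nhdsWithin_of_mem_nhds (isOpen_ball.mem_nhds hmem)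
    filter_upwards [h7, self_mem_nhdsWithin] with z hz hne
    exact hB1 z (mem_ball_zero_iff.1 hz) hne
  have h8 : B (fun k => β (k + 1)) (β 0) = bf (β 0) (β 0) * G' (β 0) ^ 2 :=
    tendsto_nhds_unique (hc1.tendsto.mono_left nhdsWithin_le_nhds)
      ((hc2.tendsto.mono_left nhdsWithin_le_nhds).congr' hev.symm)
  rw [bf_self, zero_mul] at h8
  refine (h.shift 1).B_ne_zero (h.lt_one 0) (fun k hk => ?_) h8
  have := hinj hk
  omega

section

variable {X : Type} {Hol : (X → ℂ) → Prop} {φ : X → ℂ} {σ : X → X} (A : Alg Hol φ σ)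
  {β : ℕ → ℂ} (h : BSeq β) (hinj : Function.Injective β) {ϑ : X → ℂ} (hϑ : Hol ϑ)
  (hϑ2 : ∀ x, ϑ x ^ 2 = B β (φ x))

include A h hinj hϑ hϑ2

/-- The square root of `B ∘ φ` changes sign under the interchange of sheets. -/
lemma Alg.sig_root (x : X) : ϑ (σ x) = -ϑ x := by
  have hinv : ∀ x, ϑ (σ x) * ϑ (σ (σ x)) = ϑ x * ϑ (σ x) := fun x => by rw [A.sig_sig, mul_comm]
  obtain ⟨H, hH, hHe⟩ := A.desc _ (A.mul _ _ hϑ (A.sig _ hϑ)) hinv
  have hsq : ∀ x, ϑ (σ x) ^ 2 = ϑ x ^ 2 := fun x => by rw [hϑ2, hϑ2, A.phi_sig]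
  have h1 : ∀ z, ‖z‖ < 1 → (H z - B β z) * (H z + B β z) = 0 := by
    intro z hz
    obtain ⟨x, rfl⟩ := A.surj z hz
    rw [← hHe, ← hϑ2]
    linear_combination (ϑ x ^ 2) * hsq x
  rcases eq_zero_of_mul (hH.sub h.differentiableOn) (hH.add h.differentiableOn) h1 with h2 | h2
  · exfalso
    have h3 : ∀ x, ϑ (σ x) = ϑ x := by
      intro x
      have h4 : H (φ x) - B β (φ x) = 0 := h2 (φ x) (A.lt_one x)
      rw [← hHe, ← hϑ2] at h4
      have h5 : ϑ x * (ϑ (σ x) - ϑ x) = 0 := by linear_combination h4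
      rcases mul_eq_zero.1 h5 with h6 | h6
      · have h7 := hsq x
        rw [h6, zero_pow two_ne_zero] at h7
        rw [h6, pow_eq_zero_iff two_ne_zero |>.1 h7]
      · exact sub_eq_zero.1 h6
    obtain ⟨G, hG, hGe⟩ := A.desc _ hϑ h3
    refine no_root h hinj hG fun z hz => ?_
    obtain ⟨x, rfl⟩ := A.surj z hz
    rw [← hGe, hϑ2]
  · have h4 : H (φ x) + B β (φ x) = 0 := h2 (φ x) (A.lt_one x)
    rw [← hHe, ← hϑ2] at h4
    have h5 : ϑ x * (ϑ (σ x) + ϑ x) = 0 := by linear_combination h4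
    rcases mul_eq_zero.1 h5 with h6 | h6
    · have h7 := hsq x
      rw [h6, zero_pow two_ne_zero] at h7
      rw [h6, pow_eq_zero_iff two_ne_zero |>.1 h7, neg_zero]
    · exact eq_neg_of_add_eq_zero_left h6

/-- The main step: a quasi-proper factor of `θ_ξ` is invariant under the interchange of sheets. -/
theorem Alg.invariant {ξ : ℂ} (hξ : ‖ξ‖ < 1) {θ₁ θ₂ : X → ℂ} (h₁ : QPr Hol θ₁) (h₂ : QPr Hol θ₂)
    (hprod : ∀ x, (ξ - ϑ x) / (1 - (starRingEnd ℂ) ξ * ϑ x) = θ₁ x * θ₂ x) (x : X) :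
    θ₁ (σ x) = θ₁ x := by
  have hsig := A.sig_root h hinj hϑ hϑ2
  have hϑ1 : ∀ x, ‖ϑ x‖ < 1 := fun x => by
    have h1 := congrArg norm (hϑ2 x)
    rw [norm_pow] at h1
    have h2 := h.norm_B_lt (A.lt_one x)
    nlinarith [norm_nonneg (ϑ x)]
  -- the functions on the disc
  obtain ⟨b₁, hb₁, hb₁e⟩ := A.desc _ (A.mul _ _ h₁.1 (A.sig _ h₁.1))
    (fun x => by rw [A.sig_sig, mul_comm])
  obtain ⟨b₂, hb₂, hb₂e⟩ := A.desc _ (A.mul _ _ h₂.1 (A.sig _ h₂.1))
    (fun x => by rw [A.sig_sig, mul_comm])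
  have hdiff : Hol fun x => (θ₁ x - θ₁ (σ x)) * (1 / 2) :=
    A.mul _ _ (A.sub h₁.1 (A.sig _ h₁.1)) (A.const _)
  obtain ⟨k, hk, hke⟩ := A.desc _ (A.mul _ _ hϑ hdiff)
    (fun x => by rw [A.sig_sig, hsig]; ring)
  obtain ⟨q, hq, hqe⟩ := A.desc _ (A.mul _ _ hdiff hdiff)
    (fun x => by rw [A.sig_sig]; ring)
  have hd1 : ∀ x, ‖(θ₁ x - θ₁ (σ x)) * (1 / 2)‖ ≤ 1 := fun x => by
    have e1 := norm_sub_le (θ₁ x) (θ₁ (σ x))
    have e2 := h₁.2.1 x
    have e3 := h₁.2.1 (σ x)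
    rw [norm_mul, show ‖(1 / 2 : ℂ)‖ = 1 / 2 by norm_num]
    linarith
  have hk1 : ∀ z, ‖z‖ < 1 → ‖k z‖ ≤ 1 := by
    intro z hz
    obtain ⟨x, rfl⟩ := A.surj z hz
    rw [← hke, norm_mul]
    have e1 := hd1 x
    have e2 := hϑ1 x
    nlinarith [norm_nonneg (ϑ x), norm_nonneg ((θ₁ x - θ₁ (σ x)) * (1 / 2))]
  have hk0 : ∀ j, k (β j) = 0 := by
    intro j
    obtain ⟨x, hx⟩ := A.surj (β j) (h.lt_one j)
    have e1 := hϑ2 x
    rw [hx, h.B_zero j] at e1
    rw [← hx, ← hke, pow_eq_zero_iff two_ne_zero |>.1 e1, zero_mul]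
  obtain ⟨g, hg, hg1, hge⟩ := divide h hinj hk hk1 hk0
  -- the function `F`
  set F : ℂ → ℂ := fun z => (1 - (starRingEnd ℂ) ξ ^ 2 * B β z) * g z with hF
  have hFd : DifferentiableOn ℂ F (ball 0 1) :=
    ((differentiableOn_const _).sub ((differentiableOn_const _).mul h.differentiableOn)).mul hg
  have hGd : DifferentiableOn ℂ (fun z => b₂ z * F z) (ball 0 1) := hb₂.mul hFd
  have hcξ : ∀ w : ℂ, ‖w‖ < 1 → 1 - (starRingEnd ℂ) ξ * w ≠ 0 := fun w hw => den_ne hξ hw.le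
  have hest : ∀ z, ‖z‖ < 1 → ‖(starRingEnd ℂ) (F z) - b₂ z * F z‖ ≤
      8 * ((1 - ‖B β z‖) + (1 - ‖b₁ z‖)) := by
    intro z hz
    obtain ⟨x, rfl⟩ := A.surj z hz
    have e1 := hprod x
    have e2 := hprod (σ x)
    rw [div_eq_iff (hcξ _ (hϑ1 x))] at e1
    rw [div_eq_iff (hcξ _ (hϑ1 (σ x))), hsig] at e2
    have e3 : ϑ x * ((θ₁ x - θ₁ (σ x)) / 2) = ϑ x ^ 2 * g (φ x) := by
      have e4 := hke x
      rw [hge _ (A.lt_one x)] at e4
      rw [hϑ2, ← e4]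
      ring
    have e5 := est (h₁.2.1 x) (h₁.2.1 (σ x)) (h₂.2.1 x) (h₂.2.1 (σ x)) (hϑ1 x) hξ
      (hg1 _ (A.lt_one x)) e3 e1.symm (by rw [← sub_neg_eq_add ξ, e2]; ring)
    rw [hϑ2, hb₁e, hb₂e] at e5
    exact e5
  have hmean : Tendsto (fun k => circleAverage (fun z => ‖(starRingEnd ℂ) (F (rk k * z)) -
      b₂ (rk k * z) * F (rk k * z)‖) 0 1) atTop (𝓝 0) := by
    have hm1 := A.norm_means h₁ hb₁ hb₁e
    have hmB := mean_B h
    have hlim : Tendsto (fun k => 8 * ((1 - circleAverage (fun z => ‖B β (rk k * z)‖) 0 1) +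
        (1 - circleAverage (fun z => ‖b₁ (rk k * z)‖) 0 1))) atTop (𝓝 0) := by
      have := ((hmB.const_sub 1).add (hm1.const_sub 1)).const_mul 8
      simpa using this
    refine squeeze_zero (fun k => circleAverage_nonneg_of_nonneg fun x _ => norm_nonneg _)
      (fun k => ?_) hlim
    have hcB := ci_norm h.differentiableOn (rk_pos k) (rk_lt k)
    have hc1 := ci_norm hb₁ (rk_pos k) (rk_lt k)
    have hcc : CircleIntegrable (fun _ : ℂ => (1:ℝ)) 0 1 :=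
      ContinuousOn.circleIntegrable zero_le_one continuousOn_const
    have e1 := circleAverage_add (hcc.sub hcB) (hcc.sub hc1)
    have e2 : circleAverage ((fun _ : ℂ => (1:ℝ)) - fun z => ‖B β (rk k * z)‖) 0 1 =
        1 - circleAverage (fun z => ‖B β (rk k * z)‖) 0 1 :=
      circle_avg_one_sub h.differentiableOn k
    have e3 : circleAverage ((fun _ : ℂ => (1:ℝ)) - fun z => ‖b₁ (rk k * z)‖) 0 1 =
        1 - circleAverage (fun z => ‖b₁ (rk k * z)‖) 0 1 := circle_avg_one_sub hb₁ k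
    rw [e2, e3] at e1
    rw [← e1, ← smul_eq_mul, ← circleAverage_smul]
    refine circleAverage_mono ?_ ?_ fun z hz => ?_
    · have h1 := (dil hFd (rk_pos k) (rk_lt k)).continuousOn
      have h2 := (dil hGd (rk_pos k) (rk_lt k)).continuousOn
      rw [closure_ball _ one_ne_zero] at h1 h2
      exact ContinuousOn.circleIntegrable zero_le_one
        (((Complex.continuous_conj.comp_continuousOn h1).sub h2).mono
          sphere_subset_closedBall).norm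
    · exact ((hcc.sub hcB).add (hcc.sub hc1)).const_smul
    · rw [abs_one, mem_sphere_zero_iff_norm] at hz
      have h3 : ‖(rk k : ℂ) * z‖ < 1 := by
        rw [norm_mul, Complex.norm_real, Real.norm_of_nonneg (rk_pos k).le, hz, mul_one]
        exact rk_lt k
      exact hest _ h3
  have hconst : ∀ a, ‖a‖ < 1 → (starRingEnd ℂ) (F a) = b₂ 0 * F 0 := fun a ha =>
    const_of_mean hFd hGd hmean ha
  have h00 : ‖(0:ℂ)‖ < 1 := by simp
  have hb20 : ‖b₂ 0‖ < 1 := by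
    obtain ⟨x0, hx0⟩ := A.surj 0 h00
    rw [← hx0, ← hb₂e, norm_mul]
    have e1 := h₂.2.1 x0
    have e2 := h₂.2.1 (σ x0)
    exact mul_lt_one_of_nonneg_of_lt_one_left (norm_nonneg _) e1 e2.le
  have hF0 : F 0 = 0 := by
    have e1 := congrArg norm (hconst 0 h00)
    rw [RCLike.norm_conj, norm_mul (b₂ 0)] at e1
    by_contra hne
    have e2 := norm_pos_iff.2 hne
    nlinarith
  have hF00 : ∀ a, ‖a‖ < 1 → F a = 0 := fun a ha => by
    have e1 := hconst a ha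
    rw [hF0, mul_zero] at e1
    exact (map_eq_zero _).1 e1
  have hg0 : ∀ a, ‖a‖ < 1 → g a = 0 := fun a ha => by
    rcases mul_eq_zero.1 (hF00 a ha) with e1 | e1
    · exfalso
      have e2 : (starRingEnd ℂ) ξ ^ 2 * B β a = 1 := (sub_eq_zero.1 e1).symm
      have e3 := congrArg norm e2
      rw [norm_mul, norm_pow, RCLike.norm_conj, norm_one] at e3
      have e4 := h.norm_B_lt ha
      have e5 : ‖ξ‖ ^ 2 ≤ 1 := by nlinarith [norm_nonneg ξ]
      nlinarith [norm_nonneg (B β a), sq_nonneg ‖ξ‖]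
    · exact e1
  have hBq : ∀ z, ‖z‖ < 1 → B β z * q z = 0 := by
    intro z hz
    have e0 : k z = 0 := by rw [hge z hz, hg0 z hz, mul_zero]
    obtain ⟨x, rfl⟩ := A.surj z hz
    rw [← hke] at e0
    rw [← hqe, ← hϑ2]
    linear_combination (ϑ x * ((θ₁ x - θ₁ (σ x)) * (1 / 2))) * e0
  rcases eq_zero_of_mul h.differentiableOn hq hBq with e1 | e1
  · exact absurd e1 (B_not_zero h)
  · have e2 := e1 (φ x) (A.lt_one x)
    rw [← hqe] at e2
    have e3 : θ₁ x - θ₁ (σ x) = 0 := by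
      have e4 : (θ₁ x - θ₁ (σ x)) ^ 2 = 0 := by linear_combination 4 * e2
      exact pow_eq_zero_iff two_ne_zero |>.1 e4
    exact (sub_eq_zero.1 e3).symm

/-- `θ_ξ` is not a product of two quasi-proper maps. -/
theorem Alg.irreducible {ξ : ℂ} (hξ : ‖ξ‖ < 1) {θ₁ θ₂ : X → ℂ} (h₁ : QPr Hol θ₁)
    (h₂ : QPr Hol θ₂)
    (hprod : ∀ x, (ξ - ϑ x) / (1 - (starRingEnd ℂ) ξ * ϑ x) = θ₁ x * θ₂ x) : False := by
  have hsig := A.sig_root h hinj hϑ hϑ2
  have hϑ1 : ∀ x, ‖ϑ x‖ < 1 := fun x => by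
    have h1 := congrArg norm (hϑ2 x)
    rw [norm_pow] at h1
    have h2 := h.norm_B_lt (A.lt_one x)
    nlinarith [norm_nonneg (ϑ x)]
  have i1 := A.invariant h hinj hϑ hϑ2 hξ h₁ h₂ hprod
  have i2 := A.invariant h hinj hϑ hϑ2 hξ h₂ h₁ (fun x => by rw [hprod, mul_comm])
  refine B_not_zero h fun z hz => ?_
  obtain ⟨x, rfl⟩ := A.surj z hz
  have e1 := hprod (σ x)
  rw [i1, i2, ← hprod x, hsig, div_eq_div_iff (den_ne hξ (by rw [norm_neg]; exact (hϑ1 x).le))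
    (den_ne hξ (hϑ1 x).le)] at e1
  have e2 : ϑ x * (1 - (starRingEnd ℂ) ξ * ξ) = 0 := by linear_combination (1 / 2) * e1
  rcases mul_eq_zero.1 e2 with e3 | e3
  · rw [← hϑ2, e3, zero_pow two_ne_zero]
  · exact absurd e3 (den_ne hξ hξ.le)

end

end Pool.Agent.Q99.QP
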