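import Mathlib
import Pool.Agent.TH222.QP0

/-! Two-sheeted branched coverings of the disc and quasi-proper maps. -/

set_option autoImplicit false

open Filter Topology Metric Set
open scoped Manifold ContDiff

namespace Pool.Agent.Q99.QP

variable {X : Type} [TopologicalSpace X] [ChartedSpace ℂ X]

/-- Holomorphic functions on `X`. -/
def Holo (f : X → ℂ) : Prop := MDifferentiable 𝓘(ℂ) 𝓘(ℂ) f

/-- `φ` is a proper holomorphic map of `X` onto the open unit disc, a two-sheeted branched covering,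
and `σ` is the interchange of sheets: the fibres of `φ` are the sets `{x, σ x}`. -/
structure TwoSheeted (φ : X → ℂ) (σ : X → X) : Prop where
  holo : Holo φ
  lt_one : ∀ x, ‖φ x‖ < 1
  proper : ∀ K : Set ℂ, K ⊆ ball 0 1 → IsCompact K → IsCompact (φ ⁻¹' K)
  onto : ∀ z : ℂ, ‖z‖ < 1 → ∃ x, φ x = z
  sigma_holo : MDifferentiable 𝓘(ℂ) 𝓘(ℂ) σ
  fibre : ∀ x y, φ y = φ x ↔ y = x ∨ y = σ x

/-- The critical points of `φ`. -/
def Crit (φ : X → ℂ) : Set X := {x | mfderiv 𝓘(ℂ) 𝓘(ℂ) φ x = 0}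

/-- Quasi-proper maps of `X` to the disc; the suprema are taken in `[0, ∞]`. -/
def QuasiProper (θ : X → ℂ) : Prop :=
  Holo θ ∧ (∀ x, ‖θ x‖ < 1) ∧ ∀ f : X → ℂ, Holo f → ⨆ x, ‖f x‖ₑ = ⨆ x, ‖θ x * f x‖ₑ

end Pool.Agent.Q99.QP
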