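import Mathlib
import Pool.Agent.Q99.QP.Defs
import Pool.Agent.Q99.QP.Core

/-! Holomorphic functions on a two-sheeted covering of the disc. -/

set_option autoImplicit false

open Filter Topology Metric Set
open scoped Manifold ContDiff

namespace Pool.Agent.Q99.QP

open Pool.Agent.TH222.QP (B BSeq)

variable {X : Type} [TopologicalSpace X] [ChartedSpace ℂ X]

/-- A function which descends is continuous on the disc. -/
lemma TwoSheeted.cont {φ : X → ℂ} {σ : X → X} (h : TwoSheeted φ σ) {f : X → ℂ} (hf : Continuous f)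
    {F : ℂ → ℂ} (hF : ∀ x, f x = F (φ x)) : ContinuousOn F (ball 0 1) := by
  intro z0 hz0
  refine ContinuousAt.continuousWithinAt ?_
  intro U hU
  obtain ⟨V, hVU, hVo, hV⟩ := _root_.mem_nhds_iff.1 hU
  obtain ⟨r, hr0, hr⟩ := Metric.nhds_basis_closedBall.mem_iff.1 (isOpen_ball.mem_nhds hz0)
  have hK := h.proper _ hr (isCompact_closedBall z0 r)
  have hC : IsCompact (φ ⁻¹' closedBall z0 r ∩ f ⁻¹' Vᶜ) :=
    hK.inter_right (hVo.isClosed_compl.preimage hf)
  have hφ : Continuous φ := h.holo.continuous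
  have hC' : IsClosed (φ '' (φ ⁻¹' closedBall z0 r ∩ f ⁻¹' Vᶜ)) := (hC.image hφ).isClosed
  have hz0' : z0 ∉ φ '' (φ ⁻¹' closedBall z0 r ∩ f ⁻¹' Vᶜ) := by
    rintro ⟨x, ⟨-, hx⟩, hx2⟩
    apply hx
    show f x ∈ V
    rw [hF, hx2]
    exact hV
  show F ⁻¹' U ∈ 𝓝 z0
  filter_upwards [hC'.isOpen_compl.mem_nhds hz0', Metric.closedBall_mem_nhds z0 hr0] with z hz hzr
  apply hVU
  by_contra hcon
  obtain ⟨x, rfl⟩ := h.onto z (mem_ball_zero_iff.1 (hr hzr))
  exact hz ⟨x, ⟨hzr, fun h1 => hcon (by rw [← hF]; exact h1)⟩, rfl⟩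

variable [IsManifold 𝓘(ℂ) ω X]

lemma chart_diff {f : X → ℂ} (hf : Holo f) (x0 : X) :
    DifferentiableOn ℂ (f ∘ (extChartAt 𝓘(ℂ) x0).symm) (extChartAt 𝓘(ℂ) x0).target := by
  have : IsManifold 𝓘(ℂ) 1 X := IsManifold.of_le (n := ω) (by simp)
  rw [← mdifferentiableOn_iff_differentiableOn]
  intro y hy
  exact (hf _).comp_mdifferentiableWithinAt _ (mdifferentiableOn_extChartAt_symm y hy)

/-- A function which descends is differentiable at noncritical values. -/
lemma TwoSheeted.diff {φ : X → ℂ} {σ : X → X} (h : TwoSheeted φ σ) {f : X → ℂ} (hf : Holo f)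
    {F : ℂ → ℂ} (hF : ∀ x, f x = F (φ x)) {x0 : X} (hx0 : x0 ∉ Crit φ) :
    DifferentiableAt ℂ F (φ x0) := by
  set e := extChartAt 𝓘(ℂ) x0 with he
  have heo : IsOpen e.target := isOpen_extChartAt_target x0
  have hmem : e x0 ∈ e.target := mem_extChartAt_target x0
  have h1 := chart_diff h.holo x0
  have h2 := chart_diff hf x0
  have hsymm : e.symm (e x0) = x0 := extChartAt_to_inv x0
  have hA : AnalyticAt ℂ (φ ∘ e.symm) (e x0) := h1.analyticOnNhd heo _ hmem
  have hmf : mfderiv 𝓘(ℂ) 𝓘(ℂ) φ x0 = fderiv ℂ (φ ∘ e.symm) (e x0) := by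
    rw [(h.holo x0).mfderiv]
    simp only [writtenInExtChartAt, extChartAt_model_space_eq_id, PartialEquiv.refl_coe,
      Function.id_comp, modelWithCornersSelf_coe, range_id, fderivWithin_univ]
    rfl
  have hne : deriv (φ ∘ e.symm) (e x0) ≠ 0 := by
    intro h0
    have hfd : fderiv ℂ (φ ∘ e.symm) (e x0) = 0 := by
      ext
      simpa using h0
    exact hx0 (hmf.trans hfd)
  have hsd : HasStrictDerivAt (φ ∘ e.symm) (deriv (φ ∘ e.symm) (e x0)) (e x0) :=
    hA.hasStrictDerivAt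
  set s := hsd.localInverse _ _ _ hne with hs
  have hs1 := hsd.to_localInverse hne
  have hs2 : ∀ᶠ y in 𝓝 ((φ ∘ e.symm) (e x0)), (φ ∘ e.symm) (s y) = y :=
    (hsd.hasStrictFDerivAt_equiv hne).eventually_right_inverse
  have hval : (φ ∘ e.symm) (e x0) = φ x0 := by simp [hsymm]
  have hs0 : s (φ x0) = e x0 := by
    rw [← hval]
    exact (hsd.hasStrictFDerivAt_equiv hne).localInverse_apply_image
  rw [hval] at hs1 hs2
  have hsdiff : DifferentiableAt ℂ s (φ x0) := hs1.hasDerivAt.differentiableAt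
  have hev : F =ᶠ[𝓝 (φ x0)] fun y => (f ∘ e.symm) (s y) := by
    filter_upwards [hs2] with y hy
    simp only [Function.comp] at hy ⊢
    rw [hF, hy]
  rw [hev.differentiableAt_iff]
  have h3 : DifferentiableAt ℂ (f ∘ e.symm) (s (φ x0)) := by
    rw [hs0]
    exact h2.differentiableAt (heo.mem_nhds hmem)
  exact h3.comp _ hsdiff

omit [IsManifold 𝓘(ℂ) ω X] in
lemma TwoSheeted.sig_sig {φ : X → ℂ} {σ : X → X} (h : TwoSheeted φ σ) (x : X) : σ (σ x) = x := by
  have h1 : φ (σ x) = φ x := (h.fibre x (σ x)).2 (Or.inr rfl)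
  rcases (h.fibre (σ x) x).1 h1.symm with h2 | h2
  · rw [← h2, ← h2]
  · exact h2.symm

/-- The algebra of holomorphic functions. -/
theorem TwoSheeted.alg {φ : X → ℂ} {σ : X → X} (h : TwoSheeted φ σ)
    (hcount : (φ '' Crit φ).Countable) : Alg (Holo (X := X)) φ σ where
  lt_one := h.lt_one
  surj := h.onto
  phi_sig := fun x => (h.fibre x (σ x)).2 (Or.inr rfl)
  sig_sig := h.sig_sig
  mul := fun f g hf hg => MDifferentiable.mul hf hg
  add := fun f g hf hg => MDifferentiable.add hf hg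
  comp := fun F hF x => by
    have h1 : DifferentiableAt ℂ F (φ x) :=
      hF.differentiableAt (isOpen_ball.mem_nhds (mem_ball_zero_iff.2 (h.lt_one x)))
    exact h1.mdifferentiableAt.comp x (h.holo x)
  sig := fun f hf => MDifferentiable.comp hf h.sigma_holo
  desc := fun f hf hinv => by
    classical
    choose xz hxz using h.onto
    set F : ℂ → ℂ := fun z => if hz : ‖z‖ < 1 then f (xz z hz) else 0 with hFdef
    have hF : ∀ x, f x = F (φ x) := by
      intro x
      have h1 : F (φ x) = f (xz (φ x) (h.lt_one x)) := dif_pos (h.lt_one x)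
      rw [h1]
      rcases (h.fibre x _).1 (hxz (φ x) (h.lt_one x)) with h2 | h2
      · rw [h2]
      · rw [h2, hinv]
    refine ⟨F, ?_, hF⟩
    have hcont : ContinuousOn F (ball 0 1) := h.cont hf.continuous hF
    intro z hz
    obtain ⟨r, hr0, hr⟩ := Metric.nhds_basis_closedBall.mem_iff.1 (isOpen_ball.mem_nhds hz)
    have h1 := Complex.hasFPowerSeriesOnBall_of_differentiable_off_countable (R := ⟨r, hr0.le⟩)
      (c := z) (f := F) hcount (hcont.mono hr) (fun w hw => ?_) hr0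
    · exact h1.analyticAt.differentiableAt.differentiableWithinAt
    · have hw1 : ‖w‖ < 1 := mem_ball_zero_iff.1 (hr (ball_subset_closedBall hw.1))
      obtain ⟨x, rfl⟩ := h.onto w hw1
      exact h.diff hf hF fun hx => hw.2 ⟨x, hx, rfl⟩

end Pool.Agent.Q99.QP
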